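import Pool.Agent.U549.NE.Val
import Pool.Agent.Y546.WQ.FinQ

/-!
# The relations of a solution of `x ^ p + y ^ p = r ^ j * z ^ p`
-/

set_option autoImplicit false

namespace Pool.Agent.U549.NE

open NumberField IsDedekindDomain Polynomial Pool.Agent.Y546.WQ Pool.Agent.U549.FW
  Pool.Agent.U549.LF

/-- a pair -/
structure Pr (p r j : ℕ) (x y z : ℤ) : Prop where
  cop : IsCoprime x y
  eq : x ^ p + y ^ p = (r : ℤ) ^ j * z ^ p
  z0 : z ≠ 0
  r0 : r ≠ 0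
  dv : j = 0 ∨ (r : ℤ) ∣ x + y

theorem Pr.symm {p r j : ℕ} {x y z : ℤ} (h : Pr p r j x y z) : Pr p r j y x z :=
  ⟨h.cop.symm, by rw [add_comm]; exact h.eq, h.z0, h.r0, by rw [add_comm]; exact h.dv⟩

section

variable {p q : ℕ} [Fact p.Prime] [Fact q.Prime] {E : Type} [Field E] [NumberField E]

theorem nin (hp2 : p ≠ 2) (hqp : q ≠ p) (c : Cyc p E) {x y : ℤ} (hxy : IsCoprime x y)
    (hd : (q : ℤ) ∣ x ∨ (q : ℤ) ∣ y ∨ (q : ℤ) ∣ x - y ∨ (q : ℤ) ∣ x + y)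
    (P : Ideal (𝓞 E)) (hP : P.IsPrime) (hqP : ((q : ℕ) : 𝓞 E) ∈ P) (v : 𝓞 E)
    (hv : (v : E) = aeval c.z (lf x y)) : v ∉ P := by
  have hpp : p.Prime := Fact.out
  have hqq : q.Prime := Fact.out
  have hodd : Odd p := hpp.odd_of_ne_two hp2
  obtain ⟨w, hwz, hw⟩ := exists_zint c
  have hwz' : algebraMap (𝓞 E) E w = c.z := hwz
  have hv2 : v = (x : 𝓞 E) + w * (y : 𝓞 E) := by
    apply RingOfIntegers.coe_injective
    have e1 : algebraMap (𝓞 E) E ((x : 𝓞 E) + w * (y : 𝓞 E)) = aeval c.z (lf x y) := by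
      rw [lf_aeval, map_add, map_mul, hwz', map_intCast, map_intCast, mul_comm]
    exact hv.trans e1.symm
  have hpP : ((p : ℕ) : 𝓞 E) ∉ P := by
    have h1 := int_notMem P hP q hqq hqP (p : ℤ) (by
      intro h
      exact hqp ((Nat.prime_dvd_prime_iff_eq hqq hpp).1 (by exact_mod_cast h)))
    simpa using h1
  have hmem : ∀ t : ℤ, (q : ℤ) ∣ t → (t : 𝓞 E) ∈ P := by
    rintro t ⟨d, rfl⟩
    push_cast
    exact P.mul_mem_right _ hqP
  have hw1 : w ^ (p - 1) * w = 1 := by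
    rw [← pow_succ, Nat.sub_add_cancel hpp.one_le, hw.pow_eq_one]
  rw [hv2]
  intro hm
  rcases hd with hd | hd | hd | hd
  · refine cop_mem P hP hxy (hmem x hd) ?_
    have e : (y : 𝓞 E) = w ^ (p - 1) * ((x : 𝓞 E) + w * (y : 𝓞 E)) - w ^ (p - 1) * (x : 𝓞 E) := by
      linear_combination -(y : 𝓞 E) * hw1
    rw [e]
    exact P.sub_mem (P.mul_mem_left _ hm) (P.mul_mem_left _ (hmem x hd))
  · refine cop_mem P hP hxy ?_ (hmem y hd)
    have e : (x : 𝓞 E) = ((x : 𝓞 E) + w * (y : 𝓞 E)) - w * (y : 𝓞 E) := by ring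
    rw [e]
    exact P.sub_mem hm (P.mul_mem_left _ (hmem y hd))
  · have h1 := hmem _ hd
    push_cast at h1
    have h2 : (w + 1) * (y : 𝓞 E) ∈ P := by
      have e : (w + 1) * (y : 𝓞 E) = ((x : 𝓞 E) + w * (y : 𝓞 E)) - ((x : 𝓞 E) - (y : 𝓞 E)) := by
        ring
      rw [e]
      exact P.sub_mem hm h1
    rcases hP.mem_or_mem h2 with h3 | h3
    · have hw2 : IsPrimitiveRoot (w ^ 2) p := by
        apply hw.pow_of_coprime
        exact Nat.coprime_two_left.2 hodd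
      refine root_sub hw2 (one_pow p) ?_ P hpP ?_
      · intro h4
        exact hw2.ne_one hpp.one_lt h4.symm
      · have e : w ^ 2 - 1 = (w + 1) * (w - 1) := by ring
        rw [e]
        exact P.mul_mem_right _ h3
    · refine cop_mem P hP hxy ?_ h3
      have e : (x : 𝓞 E) = ((x : 𝓞 E) - (y : 𝓞 E)) + (y : 𝓞 E) := by ring
      rw [e]
      exact P.add_mem h1 h3
  · have h1 := hmem _ hd
    push_cast at h1
    refine others hw (one_pow p) ?_ hxy P hP hpP hm ?_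
    · intro h8
      exact hw.ne_one hpp.one_lt h8.symm
    · rw [one_mul]
      exact h1

theorem lf_ne (hp2 : p ≠ 2) (c : Cyc p E) {x y z : ℤ} {r j : ℕ} (h : Pr p r j x y z) :
    aeval c.z (lf x y) ≠ 0 := by
  have hpp : p.Prime := Fact.out
  have hodd : Odd p := hpp.odd_of_ne_two hp2
  intro h0
  rw [lf_aeval] at h0
  have h1 : (x : E) ^ p + (y : E) ^ p = 0 := by
    have e1 : (x : E) = -((y : E) * c.z) := by linear_combination h0
    rw [e1, hodd.neg_pow, mul_pow, c.prim.pow_eq_one]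
    ring
  have h2 : x ^ p + y ^ p = 0 := by exact_mod_cast h1
  rw [h.eq] at h2
  rcases mul_eq_zero.1 h2 with h3 | h3
  · have := eq_zero_of_pow_eq_zero h3
    exact h.r0 (by exact_mod_cast this)
  · exact h.z0 ((pow_eq_zero_iff hpp.ne_zero).1 h3)

/-- the behaviour modulo `q` -/
theorem pal_q (x y : ℤ) :
    ((q : ℤ) ∣ x → X ^ 0 * (lf x y).map (Int.castRingHom (ZMod q)) =
      C (1 : ZMod q) * (X ^ 1 * ((lf x y).reflect 1).map (Int.castRingHom (ZMod q)))) ∧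
    ((q : ℤ) ∣ y → X ^ 1 * (lf x y).map (Int.castRingHom (ZMod q)) =
      C (1 : ZMod q) * (X ^ 0 * ((lf x y).reflect 1).map (Int.castRingHom (ZMod q)))) ∧
    ((q : ℤ) ∣ x - y → X ^ 0 * (lf x y).map (Int.castRingHom (ZMod q)) =
      C (1 : ZMod q) * (X ^ 0 * ((lf x y).reflect 1).map (Int.castRingHom (ZMod q)))) ∧
    ((q : ℤ) ∣ x + y → X ^ 0 * (lf x y).map (Int.castRingHom (ZMod q)) =
      C (-1 : ZMod q) * (X ^ 0 * ((lf x y).reflect 1).map (Int.castRingHom (ZMod q)))) := by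
  rw [lf_reflect, lf_map, lf_map]
  refine ⟨fun h => ?_, fun h => ?_, fun h => ?_, fun h => ?_⟩
  · have h1 := (ZMod.intCast_zmod_eq_zero_iff_dvd _ q).2 h
    rw [h1, C_0, C_1]
    ring
  · have h1 := (ZMod.intCast_zmod_eq_zero_iff_dvd _ q).2 h
    rw [h1, C_0, C_1]
    ring
  · have h1 := (ZMod.intCast_zmod_eq_zero_iff_dvd _ q).2 h
    push_cast at h1
    have h2 : (x : ZMod q) = (y : ZMod q) := by linear_combination h1
    rw [h2, C_1]
    ring
  · have h1 := (ZMod.intCast_zmod_eq_zero_iff_dvd _ q).2 h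
    push_cast at h1
    have h2 : (x : ZMod q) = -(y : ZMod q) := by linear_combination h1
    rw [h2, C_neg, C_neg, C_1]
    ring

end

section

variable {p q : ℕ}

theorem two_ne {p : ℕ} [Fact p.Prime] (hp2 : p ≠ 2) : (2 : ZMod p) ≠ 0 := by
  have hpp : p.Prime := Fact.out
  have : ((2 : ℕ) : ZMod p) ≠ 0 := by
    rw [Ne, ZMod.natCast_eq_zero_iff]
    intro hd
    exact hp2 ((Nat.prime_dvd_prime_iff_eq hpp Nat.prime_two).1 hd)
  exact_mod_cast this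

/-- the relations if `p` does not divide `x + y` -/
theorem core_a (hp : p.Prime) (hp2 : p ≠ 2) {x y z : ℤ} {r j : ℕ} (h : Pr p r j x y z)
    (hpu : ¬ (p : ℤ) ∣ x + y) (hq : q.Prime) (hqp : q ≠ p) :
    ((q : ℤ) ∣ x → (p : ℤ) ∣ x ∨ p ^ 2 ∣ q ^ (p - 1) - 1) ∧
    ((q : ℤ) ∣ x - y ∨ (q : ℤ) ∣ x + y → (p : ℤ) ∣ x - y ∨ p ^ 2 ∣ q ^ (p - 1) - 1) := by
  have : Fact p.Prime := ⟨hp⟩
  have : Fact q.Prime := ⟨hq⟩
  have hp3 : 3 ≤ p := by
    have := hp.two_le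
    omega
  obtain ⟨E, _, _, ⟨c⟩⟩ := Y978.WQ.main p hp2
  obtain ⟨b, hb0, hbp, hs⟩ := reg_one (p := p) hp2
  have hp1 : ¬ (p : ℤ) ∣ (lf x y).eval 1 := by
    rw [lf_eval]
    exact hpu
  have hpn : ¬ (p : ℤ) ∣ 1 := by
    intro h1
    exact hp.one_lt.ne' (by exact_mod_cast (Int.natAbs_dvd_natAbs.2 h1 |> Nat.dvd_one.1))
  have h0 := lf_ne hp2 c h
  have hv : ∀ P : HeightOneSpectrum (𝓞 E), ∃ m : ℤ, P.valuation E (aeval c.z (lf x y)) =
      P.valuation E ((1 : ℤ) : E) * WithZero.exp ((p : ℤ) * m) := by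
    intro P
    have e1 : P.valuation E ((1 : ℤ) : E) = 1 := by rw [Int.cast_one, map_one]
    by_cases hP : ((p : ℕ) : 𝓞 E) ∈ P.asIdeal
    · refine ⟨0, ?_⟩
      rw [mul_zero, WithZero.exp_zero, e1, mul_one, val_at_p c (lf x y) hp1 P hP]
    · obtain ⟨m, hm⟩ := val_lin hp2 c h.cop h.eq h.z0 h.dv P hP
      refine ⟨m, ?_⟩
      rw [e1, hm]
      exact (one_mul _).symm
  obtain ⟨g, hg, i, hrel⟩ := relGA aUNITA hp2 b hb0 hbp c (lf x y) 1 hpn hp1 h0 hv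
  obtain ⟨r', hr', hdv⟩ := Y919.WQ.mainLAMA p hp2 b hb0 hbp E c (lf x y) 1 hpn hp1 g hg i hrel
  have e1 : ((lf x y).map (Int.castRingHom (ZMod p))).eval 1 = (x : ZMod p) + y := by
    rw [lf_map]
    simp
  have e2 : (derivative ((lf x y).map (Int.castRingHom (ZMod p)))).eval 1 = (y : ZMod p) := by
    rw [lf_map]
    simp
  have hne : (x : ZMod p) + y ≠ 0 := by
    intro h1
    apply hpu
    have h2 : ((x + y : ℤ) : ZMod p) = 0 := by
      push_cast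
      exact h1
    exact (ZMod.intCast_zmod_eq_zero_iff_dvd _ p).1 h2
  have hl := lama_one hp3 _ hdv (by rw [e1]; exact hne)
  rw [e1, e2] at hl
  have hq1 : ¬ (q : ℤ) ∣ 1 := by
    intro h1
    exact hq.one_lt.ne' (by exact_mod_cast (Int.natAbs_dvd_natAbs.2 h1 |> Nat.dvd_one.1))
  obtain ⟨t1, t2, t3, t4⟩ := pal_q (q := q) x y
  have hff : aeval c.z (lf x y) = (c.z - 1) ^ 0 * aeval c.z (lf x y) := by
    rw [pow_zero, one_mul]
  have key : ∀ (a a' : ℕ) (ε : ZMod q), ε * ε = 1 →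
      X ^ a' * (lf x y).map (Int.castRingHom (ZMod q)) =
        C ε * (X ^ a * ((lf x y).reflect 1).map (Int.castRingHom (ZMod q))) →
      ((q : ℤ) ∣ x ∨ (q : ℤ) ∣ y ∨ (q : ℤ) ∣ x - y ∨ (q : ℤ) ∣ x + y) →
      2 * (i : ZMod p) + (0 : ℕ) * hsa p b 1 = (((1 : ℕ) : ZMod p) + a - a') * hsa p b 1 ∨
        p ^ 2 ∣ q ^ (p - 1) - 1 := by
    intro a a' ε hε hab hd
    exact mainRq hqp hp2 c b (lf x y) (lf x y) 1 hq1 0 1 a a' hff (lf_deg x y) ε hε hab
      (fun P hP hqP w hw => nin hp2 hqp c h.cop hd P hP hqP w hw) g hg i hrel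
  have h2 := two_ne (p := p) hp2
  have hdvd : ∀ t : ℤ, (t : ZMod p) = 0 → (p : ℤ) ∣ t := fun t ht =>
    (ZMod.intCast_zmod_eq_zero_iff_dvd _ p).1 ht
  refine ⟨fun hx => ?_, fun hd => ?_⟩
  · rcases key 1 0 1 (by ring) (t1 hx) (Or.inl hx) with h3 | h3
    · left
      apply hdvd
      push_cast at h3
      have h4 : hsa p b 1 * (2 * (x : ZMod p)) = 0 := by
        linear_combination 2 * hl - ((x : ZMod p) + y) * h3
      rcases mul_eq_zero.1 h4 with h5 | h5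
      · exact absurd h5 hs
      · exact (mul_eq_zero.1 h5).resolve_left h2
    · exact Or.inr h3
  · have h3 : 2 * (i : ZMod p) + (0 : ℕ) * hsa p b 1 = (((1 : ℕ) : ZMod p) + (0 : ℕ) - (0 : ℕ)) *
        hsa p b 1 ∨ p ^ 2 ∣ q ^ (p - 1) - 1 := by
      rcases hd with hd | hd
      · exact key 0 0 1 (by ring) (t3 hd) (Or.inr (Or.inr (Or.inl hd)))
      · exact key 0 0 (-1) (by ring) (t4 hd) (Or.inr (Or.inr (Or.inr hd)))
    rcases h3 with h3 | h3
    · left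
      apply hdvd
      push_cast at h3 ⊢
      have h4 : hsa p b 1 * ((x : ZMod p) - y) = 0 := by
        linear_combination 2 * hl - ((x : ZMod p) + y) * h3
      exact (mul_eq_zero.1 h4).resolve_left hs
    · exact Or.inr h3

end

end Pool.Agent.U549.NE
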