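import Pool.Agent.U549.NE.Core

/-!
# The relations of a solution of `x ^ p + y ^ p = r ^ j * z ^ p` with `p ∣ x + y`
-/

set_option autoImplicit false

namespace Pool.Agent.U549.NE

open NumberField IsDedekindDomain Polynomial Pool.Agent.Y546.WQ Pool.Agent.U549.FW
  Pool.Agent.U549.LF

/-- the relations if `p` divides `x + y` -/
theorem core_b {p q : ℕ} (hp : p.Prime) (hp5 : 5 ≤ p) {x y z : ℤ} {r j : ℕ}
    (h : Pr p r j x y z) (hpu : (p : ℤ) ∣ x + y) (hpy : ¬ (p : ℤ) ∣ y) (hq : q.Prime)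
    (hqp : q ≠ p) (hd : (q : ℤ) ∣ x ∨ (q : ℤ) ∣ y) : p ^ 2 ∣ q ^ (p - 1) - 1 := by
  have : Fact p.Prime := ⟨hp⟩
  have : Fact q.Prime := ⟨hq⟩
  have hp2 : p ≠ 2 := by omega
  have hp3 : 3 ≤ p := by omega
  obtain ⟨E, _, _, ⟨c⟩⟩ := Y978.WQ.main p hp2
  obtain ⟨b, hb0, hbp, hs⟩ := reg_one (p := p) hp2
  obtain ⟨s, hs1⟩ := hpu
  obtain ⟨f2, hf2⟩ : ∃ f2 : ℤ[X], f2 = C y + C s * (G0 p * (X - 1) ^ (p - 2)) := ⟨_, rfl⟩
  have hG := G0_eval hp2 c
  have hff : aeval c.z (lf x y) = (c.z - 1) ^ 1 * aeval c.z f2 := by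
    have e1 : aeval c.z f2 = (y : E) + (s : E) * (aeval c.z (G0 p) * (c.z - 1) ^ (p - 2)) := by
      rw [hf2]
      simp
    have e2 : (c.z - 1) ^ (p - 1) = (c.z - 1) ^ (p - 2) * (c.z - 1) := by
      rw [← pow_succ]
      congr 1
      omega
    have e3 : (x : E) + (y : E) = (p : E) * (s : E) := by exact_mod_cast hs1
    rw [lf_aeval, e1]
    rw [e2] at hG
    linear_combination e3 - (s : E) * hG
  have hev : f2.eval 1 = y := by
    rw [hf2]
    simp only [eval_add, eval_mul, eval_C, eval_pow, eval_sub, eval_X, eval_one, sub_self]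
    rw [zero_pow (by omega)]
    ring
  have hp1 : ¬ (p : ℤ) ∣ f2.eval 1 := by
    rw [hev]
    exact hpy
  have hpn : ¬ (p : ℤ) ∣ 1 := by
    intro h1
    exact hp.one_lt.ne' (by exact_mod_cast (Int.natAbs_dvd_natAbs.2 h1 |> Nat.dvd_one.1))
  have hf0 := lf_ne hp2 c h
  have h0 : aeval c.z f2 ≠ 0 := by
    intro h1
    rw [h1, mul_zero] at hff
    exact hf0 hff
  have hv : ∀ P : HeightOneSpectrum (𝓞 E), ∃ m : ℤ, P.valuation E (aeval c.z f2) =
      P.valuation E ((1 : ℤ) : E) * WithZero.exp ((p : ℤ) * m) := by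
    intro P
    have e1 : P.valuation E ((1 : ℤ) : E) = 1 := by rw [Int.cast_one, map_one]
    by_cases hP : ((p : ℕ) : 𝓞 E) ∈ P.asIdeal
    · refine ⟨0, ?_⟩
      rw [mul_zero, WithZero.exp_zero, e1, mul_one, val_at_p c f2 hp1 P hP]
    · obtain ⟨m, hm⟩ := val_lin hp2 c h.cop h.eq h.z0 h.dv P hP
      refine ⟨m, ?_⟩
      rw [hff, pow_one, map_mul, val_z_sub c P hP, one_mul] at hm
      rw [e1, hm]
      exact (one_mul _).symm
  obtain ⟨g, hg, i, hrel⟩ := relGA aUNITA hp2 b hb0 hbp c f2 1 hpn hp1 h0 hv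
  obtain ⟨r', hr', hdv⟩ := Y919.WQ.mainLAMA p hp2 b hb0 hbp E c f2 1 hpn hp1 g hg i hrel
  have hm2 : f2.map (Int.castRingHom (ZMod p)) = C (y : ZMod p) + C (s : ZMod p) *
      ((G0 p).map (Int.castRingHom (ZMod p)) * (X - 1) ^ (p - 2)) := by
    rw [hf2]
    simp
  have hy0 : (y : ZMod p) ≠ 0 := by
    intro h1
    exact hpy ((ZMod.intCast_zmod_eq_zero_iff_dvd _ p).1 h1)
  have e1 : (f2.map (Int.castRingHom (ZMod p))).eval 1 = (y : ZMod p) := by
    rw [hm2]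
    simp only [eval_add, eval_mul, eval_C, eval_pow, eval_sub, eval_X, eval_one, sub_self]
    rw [zero_pow (by omega)]
    ring
  have e2 : (derivative (f2.map (Int.castRingHom (ZMod p)))).eval 1 = 0 := by
    rw [hm2]
    obtain ⟨m, hm⟩ : ∃ m, p - 2 = m + 2 := ⟨p - 4, by omega⟩
    rw [hm, pow_add]
    simp only [derivative_add, derivative_mul, derivative_C, derivative_pow, derivative_sub,
      derivative_X, derivative_one, eval_add, eval_mul, eval_C, eval_pow, eval_sub, eval_X,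
      eval_one, sub_self, eval_zero, zero_mul, zero_add, mul_zero, add_zero]
    norm_num
  have hl := lama_one hp3 _ hdv (by rw [e1]; exact hy0)
  rw [e1, e2, mul_zero] at hl
  have hi : (i : ZMod p) = 0 := (mul_eq_zero.1 hl).resolve_right hy0
  have hq1 : ¬ (q : ℤ) ∣ 1 := by
    intro h1
    exact hq.one_lt.ne' (by exact_mod_cast (Int.natAbs_dvd_natAbs.2 h1 |> Nat.dvd_one.1))
  obtain ⟨t1, t2, t3, t4⟩ := pal_q (q := q) x y
  have key : ∀ (a a' : ℕ) (ε : ZMod q), ε * ε = 1 →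
      X ^ a' * (lf x y).map (Int.castRingHom (ZMod q)) =
        C ε * (X ^ a * ((lf x y).reflect 1).map (Int.castRingHom (ZMod q))) →
      ((q : ℤ) ∣ x ∨ (q : ℤ) ∣ y ∨ (q : ℤ) ∣ x - y ∨ (q : ℤ) ∣ x + y) →
      2 * (i : ZMod p) + (1 : ℕ) * hsa p b 1 = (((1 : ℕ) : ZMod p) + a - a') * hsa p b 1 ∨
        p ^ 2 ∣ q ^ (p - 1) - 1 := by
    intro a a' ε hε hab hd
    exact mainRq hqp hp2 c b (lf x y) f2 1 hq1 1 1 a a' hff (lf_deg x y) ε hε hab
      (fun P hP hqP w hw => nin hp2 hqp c h.cop hd P hP hqP w hw) g hg i hrel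
  rcases hd with hd | hd
  · rcases key 1 0 1 (by ring) (t1 hd) (Or.inl hd) with h3 | h3
    · exfalso
      rw [hi] at h3
      push_cast at h3
      apply hs
      linear_combination -h3
    · exact h3
  · rcases key 0 1 1 (by ring) (t2 hd) (Or.inr (Or.inl hd)) with h3 | h3
    · exfalso
      rw [hi] at h3
      push_cast at h3
      apply hs
      linear_combination h3
    · exact h3

end Pool.Agent.U549.NE
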