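import Pool.Agent.U549.NE.Red

/-!
# The system `A + B = C`, `A * B * C = D ^ n`: conclusions
-/

set_option autoImplicit false

namespace Pool.Agent.U549.NE

theorem one_of_dvd {n a : ℕ} (ha : 0 < a) (h : n ^ 2 ∣ a ^ (n - 1) - 1) :
    ((a : ℕ) : ZMod (n ^ 2)) ^ (n - 1) = 1 := by
  have h1 : ((a ^ (n - 1) - 1 : ℕ) : ZMod (n ^ 2)) = 0 := (ZMod.natCast_eq_zero_iff _ _).2 h
  rw [Nat.cast_sub (Nat.one_le_pow _ _ ha)] at h1
  push_cast at h1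
  exact sub_eq_zero.1 h1

theorem dvd_of_one {n a : ℕ} (ha : 0 < a) (h : ((a : ℕ) : ZMod (n ^ 2)) ^ (n - 1) = 1) :
    n ^ 2 ∣ a ^ (n - 1) - 1 := by
  rw [← ZMod.natCast_eq_zero_iff, Nat.cast_sub (Nat.one_le_pow _ _ ha)]
  push_cast
  rw [h, sub_self]

theorem pw {n : ℕ} (hn : n.Prime) {a : ℤ} (ha : ¬ (n : ℤ) ∣ a) :
    ((a : ℤ) : ZMod (n ^ 2)) ^ (n * (n - 1)) = 1 := by
  have h1 : a ^ (n - 1) ≡ 1 [ZMOD n] := Int.ModEq.pow_card_sub_one_eq_one hn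
    ((Nat.prime_iff_prime_int.1 hn).coprime_iff_not_dvd.2 ha).symm
  have h2 : (n : ℤ) ∣ a ^ (n - 1) - 1 := (Int.modEq_iff_dvd.1 h1.symm)
  have h3 := dvd_sub_pow_of_dvd_sub h2 1
  rw [pow_one, one_pow, ← pow_mul, mul_comm (n - 1) n] at h3
  have h4 : (((a ^ (n * (n - 1)) - 1 : ℤ)) : ZMod (n ^ 2)) = 0 := by
    rw [ZMod.intCast_zmod_eq_zero_iff_dvd]
    push_cast
    exact h3
  push_cast at h4
  exact sub_eq_zero.1 h4

/-- the condition in the case `n ∣ x - y` -/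
theorem wief {n p k j : ℕ} (hn : n.Prime) (hp : p.Prime) (hpn : p ≠ n) {x y z : ℤ}
    (hx : ¬ (n : ℤ) ∣ x) (hz : ¬ (n : ℤ) ∣ z) (h : x ^ n + y ^ n = (p : ℤ) ^ j * z ^ n)
    (hxy : (n : ℤ) ∣ x - y) (hj : n ∣ 3 * k + j) :
    ((2 * p ^ (3 * k) : ℕ) : ZMod (n ^ 2)) ^ (n - 1) = 1 := by
  have h1 := dvd_sub_pow_of_dvd_sub hxy 1
  rw [pow_one] at h1
  have h2 : (((x ^ n - y ^ n : ℤ)) : ZMod (n ^ 2)) = 0 := by
    rw [ZMod.intCast_zmod_eq_zero_iff_dvd]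
    push_cast
    exact h1
  have h3 := congrArg (fun t : ℤ => (t : ZMod (n ^ 2))) h
  push_cast at h2 h3
  have h4 : 2 * (x : ZMod (n ^ 2)) ^ n = (p : ZMod (n ^ 2)) ^ j * (z : ZMod (n ^ 2)) ^ n := by
    linear_combination h3 + h2
  have h5 := congrArg (fun t => t ^ (n - 1)) h4
  simp only [mul_pow] at h5
  rw [← pow_mul, ← pow_mul (z : ZMod (n ^ 2)), pw hn hx, pw hn hz, mul_one, mul_one] at h5
  have hpn' : ¬ (n : ℤ) ∣ (p : ℤ) := by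
    intro hd
    exact hpn ((Nat.prime_dvd_prime_iff_eq hn hp).1 (by exact_mod_cast hd)).symm
  have h6 := pw hn hpn'
  rw [Int.cast_natCast] at h6
  obtain ⟨m, hm⟩ := hj
  push_cast
  rw [mul_pow, h5, ← pow_mul, ← pow_mul, ← pow_add]
  have e : j * (n - 1) + 3 * k * (n - 1) = n * (n - 1) * m := by
    have : j * (n - 1) + 3 * k * (n - 1) = (3 * k + j) * (n - 1) := by ring
    rw [this, hm]
    ring
  rw [e, pow_mul, h6, one_pow]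

/-- the first case -/
theorem t1 {n p k : ℕ} (hn : n.Prime) (hn2 : n ≠ 2) (hp : p.Prime) (hpn : ¬ n ∣ p - 1)
    (hne : p ≠ n)
    {U V W D : ℤ} (hUV : IsCoprime U V) (h : U + V = W) (hU : ¬ (p : ℤ) ∣ U)
    (hV : ¬ (p : ℤ) ∣ V) (hW : W ≠ 0) (hD : (p : ℤ) ^ (3 * k) * (U * V * W) = D ^ n)
    (hnD : ¬ (n : ℤ) ∣ D) : n ^ 2 ∣ (2 * p ^ (3 * k)) ^ (n - 1) - 1 := by
  have hodd : Odd n := hn.odd_of_ne_two hn2
  have hnz : Prime (n : ℤ) := Nat.prime_iff_prime_int.1 hn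
  obtain ⟨x, y, z, j, hx, hy, hz, hP, hj⟩ := red hn hn2 hp hpn hUV h hU hV hW hD
  have hdv : ∀ t : ℤ, (n : ℤ) ∣ t → ¬ t ∣ D ^ n := by
    intro t h1 h2
    exact hnD (hnz.dvd_of_dvd_pow (h1.trans h2))
  have dU : U ∣ D ^ n := ⟨(p : ℤ) ^ (3 * k) * (V * W), by rw [← hD]; ring⟩
  have dV : V ∣ D ^ n := ⟨(p : ℤ) ^ (3 * k) * (U * W), by rw [← hD]; ring⟩
  have dW : W ∣ D ^ n := ⟨(p : ℤ) ^ (3 * k) * (U * V), by rw [← hD]; ring⟩
  have nx : ¬ (n : ℤ) ∣ x := fun h1 => hdv U (by rw [hx]; exact dvd_pow h1 hn.ne_zero) dU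
  have ny : ¬ (n : ℤ) ∣ y := fun h1 => hdv V (by rw [hy]; exact dvd_pow h1 hn.ne_zero) dV
  have nz : ¬ (n : ℤ) ∣ z := fun h1 =>
    hdv W (by rw [hz]; exact Dvd.dvd.mul_left (dvd_pow h1 hn.ne_zero) _) dW
  have nxy : ¬ (n : ℤ) ∣ x + y := fun h1 => hdv W (by
    rw [← h, hx, hy]
    exact h1.trans (Odd.add_dvd_pow_add_pow x y hodd)) dW
  have nyx : ¬ (n : ℤ) ∣ y + x := by rwa [add_comm] at nxy
  have h2n : (2 : ℕ) ≠ n := fun h1 => hn2 h1.symm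
  have H2 : (n : ℤ) ∣ x - y ∨ n ^ 2 ∣ 2 ^ (n - 1) - 1 := by
    obtain ⟨a1, a2⟩ := core_a hn hn2 hP nxy Nat.prime_two h2n
    obtain ⟨b1, b2⟩ := core_a hn hn2 hP.symm nyx Nat.prime_two h2n
    have par : ((2 : ℕ) : ℤ) ∣ x ∨ ((2 : ℕ) : ℤ) ∣ y ∨ ((2 : ℕ) : ℤ) ∣ x + y := by
      push_cast
      omega
    rcases par with h1 | h1 | h1
    · exact Or.inr ((a1 h1).resolve_left nx)
    · exact Or.inr ((b1 h1).resolve_left ny)
    · exact a2 (Or.inr h1)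
  have Hp : j = 0 ∨ (n : ℤ) ∣ x - y ∨ n ^ 2 ∣ p ^ (n - 1) - 1 := by
    rcases hP.dv with h1 | h1
    · exact Or.inl h1
    · right
      exact (core_a hn hn2 hP nxy hp hne).2 (Or.inr h1)
  apply dvd_of_one (Nat.mul_pos two_pos (pow_pos hp.pos _))
  by_cases hxy : (n : ℤ) ∣ x - y
  · exact wief hn hp hne nx nz hP.eq hxy hj
  have r2 := one_of_dvd two_pos (H2.resolve_left hxy)
  push_cast
  push_cast at r2
  rw [mul_pow, r2, one_mul, ← pow_mul]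
  rcases Hp with h1 | h1 | h1
  · rw [h1, add_zero] at hj
    obtain ⟨m, hm⟩ := hj
    have hpn' : ¬ (n : ℤ) ∣ (p : ℤ) := by
      intro hd
      exact hne ((Nat.prime_dvd_prime_iff_eq hn hp).1 (by exact_mod_cast hd)).symm
    have h6 := pw hn hpn'
    rw [Int.cast_natCast] at h6
    have e : 3 * k * (n - 1) = n * (n - 1) * m := by
      rw [hm]
      ring
    rw [e, pow_mul, h6, one_pow]
  · exact absurd h1 hxy
  · rw [mul_comm, pow_mul, one_of_dvd hp.pos h1, one_pow]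

/-- the prime divisors -/
theorem t2 {n p k q : ℕ} (hn : n.Prime) (h5 : 5 ≤ n) (hp : p.Prime) (hpn : ¬ n ∣ p - 1)
    {U V W D : ℤ} (hUV : IsCoprime U V) (h : U + V = W) (hU : ¬ (p : ℤ) ∣ U)
    (hV : ¬ (p : ℤ) ∣ V) (hW : W ≠ 0) (hD : (p : ℤ) ^ (3 * k) * (U * V * W) = D ^ n)
    (hnU : ¬ (n : ℤ) ∣ U) (hq : q.Prime) (hqU : (q : ℤ) ∣ U) : n ^ 2 ∣ q ^ (n - 1) - 1 := by
  have hn2 : n ≠ 2 := by omega
  have hnz : Prime (n : ℤ) := Nat.prime_iff_prime_int.1 hn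
  have hqz : Prime (q : ℤ) := Nat.prime_iff_prime_int.1 hq
  obtain ⟨x, y, z, j, hx, hy, hz, hP, hj⟩ := red hn hn2 hp hpn hUV h hU hV hW hD
  have nx : ¬ (n : ℤ) ∣ x := fun h1 => hnU (by rw [hx]; exact dvd_pow h1 hn.ne_zero)
  have hqn : q ≠ n := by
    rintro rfl
    exact hnU hqU
  have hqx : (q : ℤ) ∣ x := by
    rw [hx] at hqU
    exact hqz.dvd_of_dvd_pow hqU
  by_cases hu : (n : ℤ) ∣ x + y
  · have ny : ¬ (n : ℤ) ∣ y := by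
      intro h1
      apply nx
      have := dvd_sub hu h1
      rwa [add_sub_cancel_right] at this
    exact core_b hn h5 hP hu ny hq hqn (Or.inl hqx)
  · exact ((core_a hn hn2 hP hu hq hqn).1 hqx).resolve_left nx

/-- the prime `p` -/
theorem t3 {n p k : ℕ} (hn : n.Prime) (h5 : 5 ≤ n) (hp : p.Prime) (hpn : ¬ n ∣ p - 1)
    {U V W D : ℤ} (hUV : IsCoprime U V) (h : U + V = W) (hU : ¬ (p : ℤ) ∣ U)
    (hV : ¬ (p : ℤ) ∣ V) (hW : W ≠ 0) (hD : (p : ℤ) ^ (3 * k) * (U * V * W) = D ^ n)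
    (hnU : (n : ℤ) ∣ U) (hk : ¬ n ∣ k) : n ^ 2 ∣ p ^ (n - 1) - 1 := by
  have hn2 : n ≠ 2 := by omega
  have hnz : Prime (n : ℤ) := Nat.prime_iff_prime_int.1 hn
  obtain ⟨x, y, z, j, hx, hy, hz, hP, hj⟩ := red hn hn2 hp hpn hUV h hU hV hW hD
  have nx : (n : ℤ) ∣ x := by
    rw [hx] at hnU
    exact hnz.dvd_of_dvd_pow hnU
  have hpn2 : p ≠ n := by
    rintro rfl
    exact hU hnU
  have ny : ¬ (n : ℤ) ∣ y := by
    intro h1
    exact hnz.not_isUnit (hP.cop.isUnit_of_dvd' nx h1)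
  have hu : ¬ (n : ℤ) ∣ x + y := by
    intro h1
    apply ny
    have := dvd_sub h1 nx
    rwa [add_sub_cancel_left] at this
  rcases hP.dv with h1 | h1
  · exfalso
    rw [h1, add_zero] at hj
    rcases (Nat.Prime.dvd_mul hn).1 hj with h2 | h2
    · have := Nat.le_of_dvd (by norm_num) h2
      omega
    · exact hk h2
  · refine ((core_a hn hn2 hP hu hp hpn2).2 (Or.inr h1)).resolve_left fun h2 => ?_
    apply ny
    have := dvd_sub nx h2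
    rwa [sub_sub_cancel] at this

end Pool.Agent.U549.NE
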