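import Pool.Agent.U549.NE.Core2

/-!
# The system `A + B = C`, `A * B * C = D ^ n`: reduction to `x ^ n + y ^ n = p ^ j * z ^ n`
-/

set_option autoImplicit false

namespace Pool.Agent.U549.NE

theorem nc_of {p : ℕ} (hp : p.Prime) {U : ℤ} (h : ¬ (p : ℤ) ∣ U) (m : ℕ) :
    IsCoprime U ((p : ℤ) ^ m) := by
  apply IsCoprime.pow_right
  rw [isCoprime_comm]
  exact (Nat.prime_iff_prime_int.1 hp).coprime_iff_not_dvd.2 h

theorem dvd_sum {n p : ℕ} (hn : n.Prime) (hn2 : n ≠ 2) (hp : p.Prime) (hpn : ¬ n ∣ p - 1)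
    {x y : ℤ} (hy : ¬ (p : ℤ) ∣ y) (h : (p : ℤ) ∣ x ^ n + y ^ n) : (p : ℤ) ∣ x + y := by
  have : Fact p.Prime := ⟨hp⟩
  have hodd : Odd n := hn.odd_of_ne_two hn2
  have h1 := (ZMod.intCast_zmod_eq_zero_iff_dvd _ p).2 h
  push_cast at h1
  have hy0 : (y : ZMod p) ≠ 0 := by
    intro h2
    exact hy ((ZMod.intCast_zmod_eq_zero_iff_dvd _ p).1 h2)
  obtain ⟨t, ht⟩ : ∃ t : ZMod p, t = -(x : ZMod p) / y := ⟨_, rfl⟩
  have ht1 : t ^ n = 1 := by
    rw [ht, div_pow, hodd.neg_pow, div_eq_one_iff_eq (pow_ne_zero _ hy0)]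
    linear_combination -h1
  have ht0 : t ≠ 0 := by
    intro h2
    rw [h2, zero_pow hn.ne_zero] at ht1
    exact zero_ne_one ht1
  have h2 : orderOf t ∣ p - 1 := orderOf_dvd_of_pow_eq_one (ZMod.pow_card_sub_one_eq_one ht0)
  have h3 : orderOf t ∣ n := orderOf_dvd_of_pow_eq_one ht1
  rcases (Nat.dvd_prime hn).1 h3 with h4 | h4
  · have h5 := orderOf_eq_one_iff.1 h4
    rw [h5, eq_comm, div_eq_one_iff_eq hy0] at ht
    apply (ZMod.intCast_zmod_eq_zero_iff_dvd _ p).1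
    push_cast
    linear_combination -ht
  · rw [h4] at h2
    exact absurd h2 hpn

theorem red {n p k : ℕ} (hn : n.Prime) (hn2 : n ≠ 2) (hp : p.Prime) (hpn : ¬ n ∣ p - 1)
    {U V W D : ℤ} (hUV : IsCoprime U V) (h : U + V = W) (hU : ¬ (p : ℤ) ∣ U)
    (hV : ¬ (p : ℤ) ∣ V) (hW : W ≠ 0) (hD : (p : ℤ) ^ (3 * k) * (U * V * W) = D ^ n) :
    ∃ (x y z : ℤ) (j : ℕ), U = x ^ n ∧ V = y ^ n ∧ W = (p : ℤ) ^ j * z ^ n ∧ Pr n p j x y z ∧
      n ∣ 3 * k + j := by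
  have hodd : Odd n := hn.odd_of_ne_two hn2
  have hpz : Prime (p : ℤ) := Nat.prime_iff_prime_int.1 hp
  have hp0 : (p : ℤ) ≠ 0 := hpz.ne_zero
  have hUW : IsCoprime U W := by
    rw [← h, add_comm]
    exact (IsCoprime.add_mul_left_right_iff (x := U) (y := V) (z := 1)).2 hUV |> fun t => by
      simpa using t
  have hVW : IsCoprime V W := by
    rw [← h]
    exact (IsCoprime.add_mul_left_right_iff (x := V) (y := U) (z := 1)).2 hUV.symm |> fun t => by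
      simpa using t
  have hfin : FiniteMultiplicity (p : ℤ) W :=
    Int.finiteMultiplicity_iff.2 ⟨by simpa using hp.one_lt.ne', hW⟩
  obtain ⟨w, h1, h2⟩ := hfin.exists_eq_pow_mul_and_not_dvd
  obtain ⟨j, hj⟩ : ∃ j, j = multiplicity (p : ℤ) W := ⟨_, rfl⟩
  rw [← hj] at h1
  have hw0 : w ≠ 0 := by
    rintro rfl
    exact h2 (dvd_zero _)
  obtain ⟨x, hx⟩ : ∃ x, U = x ^ n := by
    refine Int.eq_pow_of_mul_eq_pow_odd_left (b := (p : ℤ) ^ (3 * k) * (V * W)) (c := D) ?_ hodd ?_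
    · exact (nc_of hp hU _).mul_right (hUV.mul_right hUW)
    · rw [← hD]
      ring
  obtain ⟨y, hy⟩ : ∃ y, V = y ^ n := by
    refine Int.eq_pow_of_mul_eq_pow_odd_left (b := (p : ℤ) ^ (3 * k) * (U * W)) (c := D) ?_ hodd ?_
    · exact (nc_of hp hV _).mul_right (hUV.symm.mul_right hVW)
    · rw [← hD]
      ring
  obtain ⟨z, hz⟩ : ∃ z, w = z ^ n := by
    refine Int.eq_pow_of_mul_eq_pow_odd_left (b := (p : ℤ) ^ (3 * k + j) * (U * V)) (c := D) ?_
      hodd ?_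
    · have hwW : w ∣ W := ⟨(p : ℤ) ^ j, by rw [h1]; ring⟩
      exact (nc_of hp h2 _).mul_right ((hUW.of_isCoprime_of_dvd_right hwW).symm.mul_right
        (hVW.of_isCoprime_of_dvd_right hwW).symm)
    · rw [← hD, h1]
      ring
  have hx0 : ¬ (p : ℤ) ∣ x := by
    intro h3
    exact hU (hx ▸ dvd_pow h3 hn.ne_zero)
  have hy0 : ¬ (p : ℤ) ∣ y := by
    intro h3
    exact hV (hy ▸ dvd_pow h3 hn.ne_zero)
  have hz0 : z ≠ 0 := by
    rintro rfl
    rw [zero_pow hn.ne_zero] at hz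
    exact hw0 hz
  have hxy : IsCoprime x y := by
    rw [hx, hy] at hUV
    exact (IsCoprime.pow_iff hn.pos hn.pos).1 hUV
  have heq : x ^ n + y ^ n = (p : ℤ) ^ j * z ^ n := by
    rw [← hx, ← hy, ← hz, ← h1, h]
  refine ⟨x, y, z, j, hx, hy, by rw [h1, hz], ⟨hxy, heq, hz0, hp.ne_zero, ?_⟩, ?_⟩
  · rcases Nat.eq_zero_or_pos j with hj0 | hj0
    · exact Or.inl hj0
    · right
      apply dvd_sum hn hn2 hp hpn hy0
      rw [heq]
      exact Dvd.dvd.mul_right (dvd_pow_self _ hj0.ne') _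
  · have e1 : (p : ℤ) ^ (3 * k + j) * (x * y * z) ^ n = D ^ n := by
      rw [← hD, h1, hx, hy, hz]
      ring
    have e2 : x * y * z ∣ D := by
      rw [← Int.pow_dvd_pow_iff hn.ne_zero]
      exact ⟨(p : ℤ) ^ (3 * k + j), by rw [← e1]; ring⟩
    obtain ⟨e, he⟩ := e2
    have hxyz : (x * y * z) ^ n ≠ 0 := by
      refine pow_ne_zero _ (mul_ne_zero (mul_ne_zero ?_ ?_) hz0)
      · rintro rfl
        exact hx0 (dvd_zero _)
      · rintro rfl
        exact hy0 (dvd_zero _)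
    have e3 : (p : ℤ) ^ (3 * k + j) = e ^ n := by
      rw [he, mul_pow] at e1
      apply mul_left_cancel₀ hxyz
      linear_combination e1
    have e4 : p ^ (3 * k + j) = e.natAbs ^ n := by
      have := congrArg Int.natAbs e3
      rwa [Int.natAbs_pow, Int.natAbs_pow, Int.natAbs_natCast] at this
    obtain ⟨t, -, ht⟩ := (Nat.dvd_prime_pow hp).1 (show e.natAbs ∣ p ^ (3 * k + j) by
      rw [e4]
      exact dvd_pow_self _ hn.ne_zero)
    rw [ht, ← pow_mul] at e4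
    have e5 := Nat.pow_right_injective hp.two_le e4
    exact ⟨t, by rw [e5]; ring⟩

end Pool.Agent.U549.NE
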