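import Pool.Agent.U549.NE.Fin

/-!
# The system `A + B = C`, `A * B * C = D ^ n` with `gcd (A, B, C) = p ^ k`
-/

set_option autoImplicit false

namespace Pool.Agent.U549.NE

/-- the symmetric form of the system after division by the greatest common divisor -/
structure Sy (n p k : ℕ) (a b c D : ℤ) : Prop where
  cop : IsCoprime a b
  sum : a + b + c = 0
  a0 : a ≠ 0
  b0 : b ≠ 0
  c0 : c ≠ 0
  eq : (p : ℤ) ^ (3 * k) * (a * b * c) = D ^ n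

theorem Sy.swap {n p k : ℕ} {a b c D : ℤ} (s : Sy n p k a b c D) : Sy n p k b a c D :=
  ⟨s.cop.symm, by linear_combination s.sum, s.b0, s.a0, s.c0, by
    rw [← s.eq]
    ring⟩

theorem Sy.rot {n p k : ℕ} {a b c D : ℤ} (s : Sy n p k a b c D) : Sy n p k b c a D := by
  refine ⟨?_, by linear_combination s.sum, s.b0, s.c0, s.a0, ?_⟩
  · obtain ⟨u, v, huv⟩ := s.cop
    refine ⟨v - u, -u, ?_⟩
    linear_combination huv - u * s.sum
  · rw [← s.eq]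
    ring

/-- a prime divides at most one of the terms -/
theorem Sy.one {n p k : ℕ} (hp : p.Prime) {a b c D : ℤ} (s : Sy n p k a b c D)
    (h : (p : ℤ) ∣ a) : ¬ (p : ℤ) ∣ b := by
  intro h1
  exact (Nat.prime_iff_prime_int.1 hp).not_isUnit (s.cop.isUnit_of_dvd' h h1)

theorem Sy.pair {n p k : ℕ} (hn2 : Odd n) {a b c D : ℤ} (s : Sy n p k a b c D) :
    a + b = -c ∧ -c ≠ 0 ∧ (p : ℤ) ^ (3 * k) * (a * b * -c) = (-D) ^ n := by
  refine ⟨by linear_combination s.sum, neg_ne_zero.2 s.c0, ?_⟩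
  rw [hn2.neg_pow, ← s.eq]
  ring

theorem s1 {n p k : ℕ} (hn : n.Prime) (hn2 : n ≠ 2) (hp : p.Prime) (hpn : ¬ n ∣ p - 1)
    (hne : p ≠ n) {a b c D : ℤ} (s : Sy n p k a b c D) (hnD : ¬ (n : ℤ) ∣ D) :
    n ^ 2 ∣ (2 * p ^ (3 * k)) ^ (n - 1) - 1 := by
  have hodd : Odd n := hn.odd_of_ne_two hn2
  have key : ∀ {a b c : ℤ}, Sy n p k a b c D → ¬ (p : ℤ) ∣ a → ¬ (p : ℤ) ∣ b →
      n ^ 2 ∣ (2 * p ^ (3 * k)) ^ (n - 1) - 1 := by
    intro a b c s ha hb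
    obtain ⟨h1, h2, h3⟩ := s.pair hodd
    exact t1 hn hn2 hp hpn hne s.cop h1 ha hb h2 h3 (by rwa [dvd_neg])
  by_cases ha : (p : ℤ) ∣ a
  · exact key s.rot (s.one hp ha) (s.swap.rot.one hp (k := k) |> fun h => by
      intro hc
      exact s.rot.rot.one hp hc ha)
  · by_cases hb : (p : ℤ) ∣ b
    · refine key s.rot.rot (fun hc => ?_) ha
      exact s.rot.one hp hb hc
    · exact key s ha hb

theorem s2 {n p k q : ℕ} (hn : n.Prime) (h5 : 5 ≤ n) (hp : p.Prime) (hpn : ¬ n ∣ p - 1)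
    {a b c D : ℤ} (s : Sy n p k a b c D) (ha : ¬ (p : ℤ) ∣ a) (hna : ¬ (n : ℤ) ∣ a)
    (hq : q.Prime) (hqa : (q : ℤ) ∣ a) : n ^ 2 ∣ q ^ (n - 1) - 1 := by
  have hn2 : n ≠ 2 := by omega
  have hodd : Odd n := hn.odd_of_ne_two hn2
  have key : ∀ {b c : ℤ}, Sy n p k a b c D → ¬ (p : ℤ) ∣ b → n ^ 2 ∣ q ^ (n - 1) - 1 := by
    intro b c s hb
    obtain ⟨h1, h2, h3⟩ := s.pair hodd
    exact t2 hn h5 hp hpn s.cop h1 ha hb h2 h3 hna hq hqa
  by_cases hb : (p : ℤ) ∣ b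
  · exact key s.rot.rot.swap (s.rot.one hp hb)
  · exact key s hb

theorem s3 {n p k : ℕ} (hn : n.Prime) (h5 : 5 ≤ n) (hp : p.Prime) (hpn : ¬ n ∣ p - 1)
    {a b c D : ℤ} (s : Sy n p k a b c D) (ha : ¬ (p : ℤ) ∣ a) (hna : (n : ℤ) ∣ a)
    (hk : ¬ n ∣ k) : n ^ 2 ∣ p ^ (n - 1) - 1 := by
  have hn2 : n ≠ 2 := by omega
  have hodd : Odd n := hn.odd_of_ne_two hn2
  have key : ∀ {b c : ℤ}, Sy n p k a b c D → ¬ (p : ℤ) ∣ b → n ^ 2 ∣ p ^ (n - 1) - 1 := by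
    intro b c s hb
    obtain ⟨h1, h2, h3⟩ := s.pair hodd
    exact t3 hn h5 hp hpn s.cop h1 ha hb h2 h3 hna hk
  by_cases hb : (p : ℤ) ∣ b
  · exact key s.rot.rot.swap (s.rot.one hp hb)
  · exact key s hb

/-- from natural numbers to the symmetric form -/
theorem wrap {n p k A B C D : ℕ} (hn2 : Odd n) (hp : p.Prime) (hA : 0 < A) (hB : 0 < B)
    (h : A + B = C) (hD : A * B * C = D ^ n) (hg : Nat.gcd (Nat.gcd A B) C = p ^ k) :
    ∃ a b : ℕ, 0 < a ∧ 0 < b ∧ A = p ^ k * a ∧ B = p ^ k * b ∧ C = p ^ k * (a + b) ∧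
      Sy n p k a b (-((a : ℤ) + b)) (-(D : ℤ)) := by
  have hg2 : Nat.gcd A B = p ^ k := by
    rw [← hg]
    refine (Nat.gcd_eq_left ?_).symm
    rw [← h]
    exact Nat.dvd_add (Nat.gcd_dvd_left A B) (Nat.gcd_dvd_right A B)
  have hpk : 0 < p ^ k := pow_pos hp.pos k
  obtain ⟨a, ha⟩ : p ^ k ∣ A := hg2 ▸ Nat.gcd_dvd_left A B
  obtain ⟨b, hb⟩ : p ^ k ∣ B := hg2 ▸ Nat.gcd_dvd_right A B
  have ha0 : 0 < a := by
    rcases Nat.eq_zero_or_pos a with h0 | h0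
    · rw [ha, h0, mul_zero] at hA
      exact absurd hA (lt_irrefl _)
    · exact h0
  have hb0 : 0 < b := by
    rcases Nat.eq_zero_or_pos b with h0 | h0
    · rw [hb, h0, mul_zero] at hB
      exact absurd hB (lt_irrefl _)
    · exact h0
  have hC : C = p ^ k * (a + b) := by
    rw [← h, ha, hb]
    ring
  have hcop : Nat.Coprime a b := by
    rw [ha, hb, Nat.gcd_mul_left] at hg2
    exact Nat.eq_of_mul_eq_mul_left hpk (by rw [hg2, mul_one])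
  refine ⟨a, b, ha0, hb0, ha, hb, hC, ?_, by ring, by exact_mod_cast ha0.ne',
    by exact_mod_cast hb0.ne', ?_, ?_⟩
  · exact Nat.isCoprime_iff_coprime.2 hcop
  · rw [neg_ne_zero]
    have : (a : ℤ) + b = ((a + b : ℕ) : ℤ) := by push_cast; ring
    rw [this]
    exact_mod_cast (Nat.add_pos_left ha0 b).ne'
  · rw [hn2.neg_pow]
    have h1 : ((A * B * C : ℕ) : ℤ) = ((D ^ n : ℕ) : ℤ) := by rw [hD]
    rw [ha, hb, hC] at h1
    push_cast at h1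
    rw [← h1]
    ring

theorem mod_of {n p : ℕ} (hn : n.Prime) (hn2 : n ≠ 2) (hp : p.Prime) (hp2 : p ≠ 2)
    (h : ¬ p ≡ 1 [MOD 2 * n]) : ¬ n ∣ p - 1 := by
  intro hd
  apply h
  have h2 : 2 ∣ p - 1 := by
    obtain ⟨m, hm⟩ := hp.odd_of_ne_two hp2
    exact ⟨m, by omega⟩
  have hc : Nat.Coprime 2 n := (Nat.coprime_primes Nat.prime_two hn).2 fun h => hn2 h.symm
  have h3 := hc.mul_dvd_of_dvd_of_dvd h2 hd
  exact ((Nat.modEq_iff_dvd' hp.one_le).2 h3).symm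

/-- the first case -/
theorem main_one {n p k A B C D : ℕ} (hn : n.Prime) (hn2 : n ≠ 2) (hp : p.Prime) (hp2 : p ≠ 2)
    (hpn : ¬ p ≡ 1 [MOD 2 * n]) (hk : 0 < k) (hA : 0 < A) (hB : 0 < B)
    (h : A + B = C) (hD : A * B * C = D ^ n) (hg : Nat.gcd (Nat.gcd A B) C = p ^ k)
    (hnD : ¬ n ∣ D) : n ^ 2 ∣ (2 * p ^ (3 * k)) ^ (n - 1) - 1 := by
  have hodd : Odd n := hn.odd_of_ne_two hn2
  obtain ⟨a, b, -, -, ha, hb, hC, s⟩ := wrap hodd hp hA hB h hD hg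
  refine s1 hn hn2 hp (mod_of hn hn2 hp hp2 hpn) ?_ s ?_
  · rintro rfl
    apply hnD
    have h1 : p ∣ D ^ p := by
      rw [← hD, ha, mul_assoc, mul_assoc]
      exact (dvd_pow_self p hk.ne').mul_right _
    exact hp.dvd_of_dvd_pow h1
  · rw [dvd_neg]
    intro h1
    exact hnD (by exact_mod_cast h1)

/-- the prime divisors -/
theorem main_two {n p k A B C D : ℕ} (hn : n.Prime) (h5 : 5 ≤ n) (hp : p.Prime) (hp2 : p ≠ 2)
    (hpn : ¬ p ≡ 1 [MOD 2 * n]) (hA : 0 < A) (hB : 0 < B)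
    (h : A + B = C) (hD : A * B * C = D ^ n) (hg : Nat.gcd (Nat.gcd A B) C = p ^ k) {t : ℕ}
    (ht : A = p ^ k * t ∨ B = p ^ k * t ∨ C = p ^ k * t) (hpt : ¬ p ∣ t) :
    (¬ n ∣ t → ∀ q : ℕ, q.Prime → q ∣ t → n ^ 2 ∣ q ^ (n - 1) - 1) ∧
    (n ∣ t → ¬ n ∣ k → n ^ 2 ∣ p ^ (n - 1) - 1) := by
  have hn2 : n ≠ 2 := by omega
  have hodd : Odd n := hn.odd_of_ne_two hn2
  obtain ⟨a, b, -, -, ha, hb, hC, s⟩ := wrap hodd hp hA hB h hD hg
  have hm := mod_of hn hn2 hp hp2 hpn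
  have hpk : 0 < p ^ k := pow_pos hp.pos k
  have hs : ∃ a' b' c' : ℤ, Sy n p k a' b' c' (-(D : ℤ)) ∧ (a' = t ∨ a' = -t) := by
    rcases ht with h1 | h1 | h1
    · have : a = t := Nat.eq_of_mul_eq_mul_left hpk (ha.symm.trans h1)
      exact ⟨_, _, _, s, Or.inl (by rw [this])⟩
    · have : b = t := Nat.eq_of_mul_eq_mul_left hpk (hb.symm.trans h1)
      exact ⟨_, _, _, s.rot, Or.inl (by rw [this])⟩
    · have : a + b = t := Nat.eq_of_mul_eq_mul_left hpk (hC.symm.trans h1)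
      refine ⟨_, _, _, s.rot.rot, Or.inr ?_⟩
      rw [← this]
      push_cast
      ring
  obtain ⟨a', b', c', s', ha'⟩ := hs
  have hd : ∀ m : ℕ, (m : ℤ) ∣ a' ↔ m ∣ t := by
    intro m
    rcases ha' with h1 | h1
    · rw [h1]
      exact Int.natCast_dvd_natCast
    · rw [h1, dvd_neg]
      exact Int.natCast_dvd_natCast
  refine ⟨fun hnt q hq hqt => ?_, fun hnt hk => ?_⟩
  · exact s2 hn h5 hp hm s' (by rwa [hd]) (by rwa [hd]) hq ((hd q).2 hqt)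
  · exact s3 hn h5 hp hm s' (by rwa [hd]) ((hd n).2 hnt) hk

end Pool.Agent.U549.NE
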