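import Pool.Agent.U549.FW.Rq
import Pool.Agent.U549.FW.One

/-!
# The linear polynomial of a solution of `x ^ p + y ^ p = r ^ j * z ^ p`: valuations
-/

set_option autoImplicit false

namespace Pool.Agent.U549.NE

open NumberField IsDedekindDomain Polynomial Pool.Agent.Y546.WQ Pool.Agent.U549.FW
  Pool.Agent.U549.LF

/-- the linear polynomial -/
noncomputable def lf (x y : ℤ) : ℤ[X] := C x + C y * X

theorem lf_deg (x y : ℤ) : (lf x y).natDegree ≤ 1 := by
  unfold lf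
  rw [add_comm]
  exact natDegree_linear_le

theorem lf_reflect (x y : ℤ) : (lf x y).reflect 1 = lf y x := by
  unfold lf
  rw [reflect_add, reflect_C, ← pow_one (X : ℤ[X]), reflect_C_mul_X_pow]
  have e : revAt 1 1 = 0 := by
    rw [revAt_le (le_refl 1)]
  rw [e, pow_zero, mul_one, pow_one]
  ring

theorem lf_map (q : ℕ) (x y : ℤ) : (lf x y).map (Int.castRingHom (ZMod q)) =
    C (x : ZMod q) + C (y : ZMod q) * X := by
  unfold lf
  simp

theorem lf_eval (x y : ℤ) : (lf x y).eval 1 = x + y := by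
  unfold lf
  simp

theorem lf_aeval {E : Type} [Field E] [NumberField E] (x y : ℤ) (z : E) :
    aeval z (lf x y) = (x : E) + (y : E) * z := by
  unfold lf
  simp

section

variable {p : ℕ} [Fact p.Prime] {E : Type} [Field E] [NumberField E]

theorem cop_mem {R : Type*} [CommRing R] (P : Ideal R) (hP : P.IsPrime) {x y : ℤ}
    (h : IsCoprime x y) (hx : (x : R) ∈ P) (hy : (y : R) ∈ P) : False := by
  obtain ⟨a, b, hab⟩ := h
  apply hP.ne_top
  rw [Ideal.eq_top_iff_one]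
  have e : (1 : R) = a * x + b * y := by
    have := congrArg (fun t : ℤ => (t : R)) hab
    push_cast at this
    exact this.symm
  rw [e]
  exact P.add_mem (P.mul_mem_left _ hx) (P.mul_mem_left _ hy)

theorem root_sub {w u : 𝓞 E} (hw : IsPrimitiveRoot w p) (hu : u ^ p = 1) (huw : u ≠ w)
    (P : Ideal (𝓞 E)) (hpP : ((p : ℕ) : 𝓞 E) ∉ P) : w - u ∉ P := by
  have hpp : p.Prime := Fact.out
  intro hm
  obtain ⟨s, hs⟩ : ∃ s, s = u * w ^ (p - 1) := ⟨_, rfl⟩
  have hw1 : w ^ (p - 1) * w = 1 := by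
    rw [← pow_succ, Nat.sub_add_cancel hpp.one_le, hw.pow_eq_one]
  have hs1 : s * w = u := by
    rw [hs, mul_assoc, hw1, mul_one]
  have hsp : s ^ p = 1 := by
    have h1 := congrArg (fun t => t ^ p) hs1
    simp only [mul_pow, hw.pow_eq_one, mul_one, hu] at h1
    exact h1
  have hs2 : s ≠ 1 := by
    intro h
    rw [h, one_mul] at hs1
    exact huw hs1.symm
  have h2 : orderOf s = p := orderOf_eq_prime hsp hs2
  have h3 : IsPrimitiveRoot s p := by
    rw [← h2]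
    exact IsPrimitiveRoot.orderOf s
  obtain ⟨d, hd⟩ := Y261.WQ.p_dvd h3
  apply hpP
  have e : ((p : ℕ) : 𝓞 E) = (w - u) * (w ^ (p - 1) * d) := by
    rw [hd, ← hs1]
    linear_combination -(1 - s) * d * hw1
  rw [e]
  exact P.mul_mem_right _ hm

/-- the other factors are prime to a prime dividing the first one -/
theorem others {w u : 𝓞 E} (hw : IsPrimitiveRoot w p) (hu : u ^ p = 1) (huw : u ≠ w)
    {x y : ℤ} (hxy : IsCoprime x y) (P : Ideal (𝓞 E)) (hP : P.IsPrime)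
    (hpP : ((p : ℕ) : 𝓞 E) ∉ P) (h : (x : 𝓞 E) + w * (y : 𝓞 E) ∈ P) :
    (x : 𝓞 E) + u * (y : 𝓞 E) ∉ P := by
  intro h2
  have h3 : (w - u) * (y : 𝓞 E) ∈ P := by
    have e : (w - u) * (y : 𝓞 E) = ((x : 𝓞 E) + w * (y : 𝓞 E)) - ((x : 𝓞 E) + u * (y : 𝓞 E)) := by
      ring
    rw [e]
    exact P.sub_mem h h2
  rcases hP.mem_or_mem h3 with h4 | h4
  · exact root_sub hw hu huw P hpP h4
  · refine cop_mem P hP hxy ?_ h4
    have e : (x : 𝓞 E) = ((x : 𝓞 E) + w * (y : 𝓞 E)) - w * (y : 𝓞 E) := by ring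
    rw [e]
    exact P.sub_mem h (P.mul_mem_left _ h4)

theorem val_lin (hp2 : p ≠ 2) (c : Cyc p E) {x y z : ℤ} {r j : ℕ}
    (hxy : IsCoprime x y) (h : x ^ p + y ^ p = (r : ℤ) ^ j * z ^ p) (hz : z ≠ 0)
    (hj : j = 0 ∨ (r : ℤ) ∣ x + y) (P : HeightOneSpectrum (𝓞 E))
    (hpP : ((p : ℕ) : 𝓞 E) ∉ P.asIdeal) :
    ∃ m : ℤ, P.valuation E (aeval c.z (lf x y)) = WithZero.exp ((p : ℤ) * m) := by
  classical
  have hpp : p.Prime := Fact.out
  have hodd : Odd p := hpp.odd_of_ne_two hp2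
  obtain ⟨w, hwz, hw⟩ := exists_zint c
  have hwz' : algebraMap (𝓞 E) E w = c.z := hwz
  have e0 : aeval c.z (lf x y) = algebraMap (𝓞 E) E ((x : 𝓞 E) + w * (y : 𝓞 E)) := by
    rw [lf_aeval, map_add, map_mul, hwz', map_intCast, map_intCast, mul_comm]
  rw [e0]
  by_cases hm : (x : 𝓞 E) + w * (y : 𝓞 E) ∈ P.asIdeal
  swap
  · refine ⟨0, ?_⟩
    rw [mul_zero, WithZero.exp_zero]
    exact val_one P _ hm
  -- the product
  have hprod := hw.pow_add_pow_eq_prod_add_mul (x : 𝓞 E) (y : 𝓞 E) hodd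
  have hmem : w ∈ nthRootsFinset p (1 : 𝓞 E) := by
    rw [mem_nthRootsFinset hpp.pos]
    exact hw.pow_eq_one
  rw [← Finset.mul_prod_erase _ _ hmem] at hprod
  have h2 : ((x : 𝓞 E) ^ p + (y : 𝓞 E) ^ p) = ((r : ℕ) : 𝓞 E) ^ j * (z : 𝓞 E) ^ p := by
    have := congrArg (fun t : ℤ => (t : 𝓞 E)) h
    push_cast at this
    exact this
  rw [h2] at hprod
  have h3 := congrArg (fun t => P.valuation E (algebraMap (𝓞 E) E t)) hprod
  simp only [map_mul, map_pow] at h3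
  have h4 : P.valuation E (algebraMap (𝓞 E) E
      (∏ ζ ∈ (nthRootsFinset p (1 : 𝓞 E)).erase w, ((x : 𝓞 E) + ζ * (y : 𝓞 E)))) = 1 := by
    rw [map_prod, map_prod]
    refine Finset.prod_eq_one fun u hu => ?_
    rw [Finset.mem_erase, mem_nthRootsFinset hpp.pos] at hu
    exact val_one P _ (others hw hu.2 hu.1 hxy P.asIdeal P.isPrime hpP hm)
  have h5 : P.valuation E (algebraMap (𝓞 E) E ((r : ℕ) : 𝓞 E)) ^ j = 1 := by
    rcases hj with hj | hj
    · rw [hj, pow_zero]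
    · have h6 : ((r : ℕ) : 𝓞 E) ∉ P.asIdeal := by
        intro hrP
        have h7 : (x : 𝓞 E) + 1 * (y : 𝓞 E) ∈ P.asIdeal := by
          obtain ⟨d, hd⟩ := hj
          have e1 := congrArg (fun t : ℤ => (t : 𝓞 E)) hd
          push_cast at e1
          rw [one_mul, e1]
          exact P.asIdeal.mul_mem_right _ hrP
        refine others hw (one_pow p) ?_ hxy P.asIdeal P.isPrime hpP hm h7
        intro h8
        exact hw.ne_one hpp.one_lt h8.symm
      rw [val_one P _ h6, one_pow]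
  rw [h4, mul_one, h5, one_mul] at h3
  rw [← h3]
  have hz0 : algebraMap (𝓞 E) E (z : 𝓞 E) ≠ 0 := by
    rw [map_intCast]
    exact_mod_cast hz
  have hv0 : P.valuation E (algebraMap (𝓞 E) E (z : 𝓞 E)) ≠ 0 := (Valuation.ne_zero_iff _).2 hz0
  obtain ⟨m, hm⟩ : ∃ m : ℤ, P.valuation E (algebraMap (𝓞 E) E (z : 𝓞 E)) = WithZero.exp m :=
    ⟨_, (WithZero.exp_log hv0).symm⟩
  refine ⟨m, ?_⟩
  rw [hm, ← WithZero.exp_nsmul, nsmul_eq_mul]

end

end Pool.Agent.U549.NE
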